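import Pool.Agent.Run7.h275.RB16
import Pool.Agent.Run7.h24.RB.CMP1
import Pool.Agent.Run7.h24.RB.CMP2

/-!
# Project RB (helper275), piece PTS: points with values in valuation rings (helper216)
-/

set_option autoImplicit false
set_option linter.all false

namespace Pool.Agent.Run7.h216.RB

open IsLocalRing Pool.Agent.W418.LU2 Pool.Agent.H918R2.Quad Pool.Agent.Run7.h275.RL Pool.Agent.Run7.h275.RB
  Pool.Agent.Run7.h24.RB

/-- a valuation ring with a given centre -/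
lemma exists_centre {F : Type} [Field F] (B : Subring F) (P : Ideal B) [P.IsPrime] :
    ∃ V₀ : ValuationSubring F, B ≤ V₀.toSubring ∧ ∀ b : B, V₀.valuation (b : F) < 1 ↔ b ∈ P := by
  obtain ⟨V, hV⟩ := (LocalSubring.ofPrime B P).exists_le_valuationSubring
  obtain ⟨h1, h2⟩ := hV
  have hBV : B ≤ V.toSubring := (LocalSubring.le_ofPrime B P).trans h1
  refine ⟨V, hBV, fun b => ?_⟩
  have e1 : IsUnit (algebraMap B (LocalSubring.ofPrime B P).toSubring b) ↔ b ∈ P.primeCompl :=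
    IsLocalization.AtPrime.isUnit_to_map_iff _ P b
  have e2 : IsUnit (algebraMap B (LocalSubring.ofPrime B P).toSubring b) ↔
      IsUnit (Subring.inclusion h1 (algebraMap B (LocalSubring.ofPrime B P).toSubring b)) :=
    ⟨fun h => h.map _, fun h => h2.map_nonunit _ h⟩
  have e3 : IsUnit (Subring.inclusion h1 (algebraMap B (LocalSubring.ofPrime B P).toSubring b)) ↔
      ¬ V.valuation (b : F) < 1 := by
    rw [← not_iff_not, not_not]
    have h3 := ValuationSubring.valuation_lt_one_iff V ⟨(b : F), hBV b.2⟩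
    rw [mem_maximalIdeal, mem_nonunits_iff] at h3
    exact h3
  rw [← not_iff_not, ← e3, ← e2, e1]
  rfl

theorem t_PTS : S_PTS := by
  intro F L _ _ B hB π R hπR hreg
  have hprime : (RingHom.ker π).IsPrime := RingHom.ker_isPrime π
  obtain ⟨V₀, hBV, hV₀⟩ := exists_centre B (RingHom.ker π)
  have hA : IsRegularLocalRing (lo V₀.toSubring B) := hreg V₀ hBV fun b => by
    rw [hV₀, RingHom.mem_ker]
  obtain ⟨W, hAW, hW1, hW2⟩ := CMP1 F (lo V₀.toSubring B) (by
    intro z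
    obtain ⟨a, ha, b, hb, hb0, hz⟩ := hB z
    exact ⟨a, le_lo _ _ ha, b, le_lo _ _ hb, hb0, hz⟩)
  have hBW : B ≤ W.toSubring := (le_lo _ _).trans hAW
  have hWB : ∀ b : B, W.valuation (b : F) < 1 ↔ π b = 0 := by
    intro b
    rw [← RingHom.mem_ker, ← hV₀]
    have h1 := hW1 ⟨(b : F), le_lo _ _ b.2⟩
    rw [mem_maximalIdeal, mem_nonunits_iff, isUnit_lo_iff hBV] at h1
    rw [h1, val_lt_one_iff', not_and_or, not_not]
    rfl
  obtain ⟨ρ, hρ1, hρ2⟩ := exists_rho B W π hBW hWB (by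
    intro w hw
    obtain ⟨z, hz, hz1⟩ := hW2 w hw
    obtain ⟨a, ha, b, hb, hb0, hbV, rfl⟩ := hz
    refine ⟨a, ha, b, hb, ?_, ?_⟩
    · rw [hWB ⟨b, hb⟩, ← RingHom.mem_ker, ← hV₀, val_lt_one_iff']
      push Not
      exact ⟨hb0, hbV⟩
    · rw [div_eq_mul_inv]
      exact hz1)
  obtain ⟨V, hVW, hV1, hV2, hV3⟩ := CMP2 F L W.toSubring W ρ R le_rfl (fun w => (hρ2 w).symm)
    (fun w hw => ⟨w, hw, by rw [sub_self, map_zero]; exact zero_lt_one⟩)
  refine ⟨W, V, hVW, ?_, hWB, ?_, ?_⟩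
  · intro b hb
    have h1 := (hV1 ⟨b, hBW hb⟩).2 (by rw [hρ1 b hb]; exact hπR _)
    exact h1
  · intro b q hq
    refine hV3 ⟨(b : F), hBW b.2⟩ q ?_
    rw [hρ1 (b : F) b.2]
    exact hq
  · intro Q hQV hIC _
    have hQW : Q ≤ W.toSubring := hQV.trans hVW
    have hmem : ∀ q : Q, (ρ.comp (Subring.inclusion hQW)) q ∈ R.toSubring := fun q =>
      (hV1 ⟨(q : F), hQW q.2⟩).1 (hQV q.2)
    refine ⟨(ρ.comp (Subring.inclusion hQW)).codRestrict R.toSubring hmem, ?_, ?_⟩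
    · intro q hq
      have h1 : ¬ R.valuation (ρ ⟨(q : F), hQW q.2⟩) < 1 := by
        intro h
        have h2 := (ValuationSubring.valuation_lt_one_iff R
          ⟨ρ ⟨(q : F), hQW q.2⟩, hmem q⟩).2 h
        rw [mem_maximalIdeal, mem_nonunits_iff] at h2
        exact h2 hq
      rw [← hV2 ⟨(q : F), hQW q.2⟩, val_lt_one_iff'] at h1
      push Not at h1
      have h2 := hIC q q.2 h1.1 h1.2
      refine isUnit_iff_exists_inv.2 ⟨⟨(q : F)⁻¹, h2⟩, Subtype.ext ?_⟩
      exact mul_inv_cancel₀ h1.1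
    · intro b h
      exact hρ1 (b : F) b.2

end Pool.Agent.Run7.h216.RB
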