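import Pool.Agent.Run7.h275.RB10

/-!
# Project RB (helper275), piece NUL
-/

set_option autoImplicit false
set_option linter.all false

namespace Pool.Agent.Run7.h216.RB

open IsLocalRing

theorem t_NUL : Pool.Agent.Run7.h275.RB.S_NUL := by
  intro F _ B _ J 𝔠 h
  have hJ : J ≤ 𝔠.radical := by
    rw [Ideal.radical_eq_sInf]
    refine le_sInf ?_
    rintro 𝔮 ⟨h𝔮, hp⟩
    obtain ⟨V, hV⟩ := (LocalSubring.ofPrime B 𝔮).exists_le_valuationSubring
    have hBV : B ≤ V.toSubring := (LocalSubring.le_ofPrime ..).trans hV.1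
    have key : ∀ b : B, b ∉ 𝔮 ↔ V.valuation (b : F) = 1 := by
      intro b
      have h1 : IsUnit (algebraMap B (LocalSubring.ofPrime B 𝔮).toSubring b) ↔ b ∈ 𝔮.primeCompl :=
        IsLocalization.AtPrime.isUnit_to_map_iff _ 𝔮 b
      have h2 := hV.2
      have h3 : IsUnit (Subring.inclusion hV.1 (algebraMap B (LocalSubring.ofPrime B 𝔮).toSubring b)) ↔
          IsUnit (algebraMap B (LocalSubring.ofPrime B 𝔮).toSubring b) := isUnit_map_iff _ _
      have h4 : IsUnit (⟨(b : F), hBV b.2⟩ : V) ↔ V.valuation (b : F) = 1 :=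
        V.valuation_eq_one_iff ⟨(b : F), hBV b.2⟩
      rw [← h4]
      exact h1.symm.trans h3.symm
    intro b hb
    by_contra hbq
    have h5 : V.valuation (b : F) < 1 := by
      refine h V hBV (fun c hc => ?_) b hb
      have h6 : ¬ V.valuation (c : F) = 1 := fun h7 => (key c).2 h7 (h𝔮 hc)
      have h8 : V.valuation (c : F) ≤ 1 := (V.valuation_le_one_iff (c : F)).2 (hBV c.2)
      exact lt_of_le_of_ne h8 h6
    exact h5.ne ((key b).1 hbq)
  exact Ideal.exists_pow_le_of_le_radical_of_fg hJ (IsNoetherian.noetherian J)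

end Pool.Agent.Run7.h216.RB
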