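import Pool.Agent.Run7.h275.RB10

/-!
# Project RB (helper275), piece TRP: presentations of the charts of `Proj O[M₀ C]`
-/

set_option autoImplicit false
set_option linter.all false

namespace Pool.Agent.Run7.h216.RB

open IsLocalRing Pool.Agent.W418.LU2 Pool.Agent.H918R2.Quad Pool.Agent.Run7.h275.RL Pool.Agent.Run7.h275.RB

section ext

variable {R : Type} [CommRing R] {m : ℕ}

/-- the derivation on the constants, with values in the dual numbers -/
noncomputable def th0 (m : ℕ) (d : Derivation ℤ R R) : R →+* DualNumber (MvPolynomial (Fin m) R) where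
  toFun r := (MvPolynomial.C r, MvPolynomial.C (d r))
  map_one' := by
    refine TrivSqZeroExt.ext ?_ ?_
    · show MvPolynomial.C 1 = (1 : MvPolynomial (Fin m) R)
      rw [map_one]
    · show MvPolynomial.C (d 1) = (0 : MvPolynomial (Fin m) R)
      rw [Derivation.map_one_eq_zero, map_zero]
  map_mul' a b := by
    refine TrivSqZeroExt.ext ?_ ?_
    · show MvPolynomial.C (a * b) = (MvPolynomial.C a * MvPolynomial.C b : MvPolynomial (Fin m) R)
      rw [map_mul]
    · show MvPolynomial.C (d (a * b)) = (MvPolynomial.C a • MvPolynomial.C (d b) +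
        MulOpposite.op (MvPolynomial.C b) • MvPolynomial.C (d a) : MvPolynomial (Fin m) R)
      rw [Derivation.leibniz, op_smul_eq_smul, smul_eq_mul, smul_eq_mul, smul_eq_mul, smul_eq_mul,
        map_add, map_mul, map_mul]
  map_zero' := by
    refine TrivSqZeroExt.ext ?_ ?_
    · show MvPolynomial.C 0 = (0 : MvPolynomial (Fin m) R)
      rw [map_zero]
    · show MvPolynomial.C (d 0) = (0 : MvPolynomial (Fin m) R)
      rw [map_zero, map_zero]
  map_add' a b := by
    refine TrivSqZeroExt.ext ?_ ?_
    · show MvPolynomial.C (a + b) = (MvPolynomial.C a + MvPolynomial.C b : MvPolynomial (Fin m) R)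
      rw [map_add]
    · show MvPolynomial.C (d (a + b)) = (MvPolynomial.C (d a) + MvPolynomial.C (d b) : MvPolynomial (Fin m) R)
      rw [map_add, map_add]

/-- the extension to the polynomials -/
noncomputable def th (d : Derivation ℤ R R) : MvPolynomial (Fin m) R →+* DualNumber (MvPolynomial (Fin m) R) :=
  MvPolynomial.eval₂Hom (th0 m d) (fun b => TrivSqZeroExt.inl (MvPolynomial.X b))

lemma th_C (d : Derivation ℤ R R) (r : R) : th (m := m) d (MvPolynomial.C r) = th0 m d r :=
  MvPolynomial.eval₂Hom_C _ _ _

lemma th_X (d : Derivation ℤ R R) (b : Fin m) :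
    th d (MvPolynomial.X b : MvPolynomial (Fin m) R) = TrivSqZeroExt.inl (MvPolynomial.X b) :=
  MvPolynomial.eval₂Hom_X' _ _ _

lemma th_fst (d : Derivation ℤ R R) (s : MvPolynomial (Fin m) R) : (th d s).fst = s := by
  induction s using MvPolynomial.induction_on with
  | C a => rw [th_C]; rfl
  | add p q hp hq => rw [map_add, TrivSqZeroExt.fst_add, hp, hq]
  | mul_X p b hp => rw [map_mul, TrivSqZeroExt.fst_mul, hp, th_X, TrivSqZeroExt.fst_inl]

/-- the extended derivation -/
noncomputable def de (d : Derivation ℤ R R) (s : MvPolynomial (Fin m) R) : MvPolynomial (Fin m) R := (th d s).snd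

lemma de_add (d : Derivation ℤ R R) (a b : MvPolynomial (Fin m) R) : de d (a + b) = de d a + de d b := by
  unfold de
  rw [map_add, TrivSqZeroExt.snd_add]

lemma de_mul (d : Derivation ℤ R R) (a b : MvPolynomial (Fin m) R) :
    de d (a * b) = a * de d b + b * de d a := by
  unfold de
  rw [map_mul, TrivSqZeroExt.snd_mul, th_fst, th_fst, op_smul_eq_smul, smul_eq_mul, smul_eq_mul]

lemma de_C (d : Derivation ℤ R R) (r : R) : de (m := m) d (MvPolynomial.C r) = MvPolynomial.C (d r) := by
  unfold de
  rw [th_C]
  rfl

end ext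

section main

variable {O F : Type} [CommRing O] [IsDomain O] [IsRegularRing O] [Field F] [Algebra O F] {n m : ℕ}
  (y : Fin n → F) (g : Fin m → F) (i : Fin n) (k : Fin m)

/-- the coordinate map -/
noncomputable def ph2 : MvPolynomial (Fin m) (MvPolynomial (Fin n) O) →+* F :=
  MvPolynomial.eval₂Hom (ph O y i) (fun b => g b / g k)

lemma ph2_C (r : MvPolynomial (Fin n) O) : ph2 y g i k (MvPolynomial.C r) = ph O y i r :=
  MvPolynomial.eval₂Hom_C _ _ _

lemma ph2_X (b : Fin m) :
    ph2 y g i k (MvPolynomial.X b : MvPolynomial (Fin m) (MvPolynomial (Fin n) O)) = g b / g k :=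
  MvPolynomial.eval₂Hom_X' _ _ _

lemma ph2_range (hy : ∀ i, y i ≠ 0) (hg : ∀ k, g k ≠ 0) : (ph2 (O := O) y g i k).range =
    (chart O (Submodule.span O (Set.range y) * Submodule.span O (Set.range g)) (y i * g k)).toSubring := by
  set M := Submodule.span O (Set.range y) with hM
  set N := Submodule.span O (Set.range g) with hN
  have hyM : ∀ j, y j ∈ M := fun j => Submodule.subset_span ⟨j, rfl⟩
  have hgN : ∀ b, g b ∈ N := fun b => Submodule.subset_span ⟨b, rfl⟩
  apply le_antisymm
  · rintro _ ⟨s, rfl⟩
    induction s using MvPolynomial.induction_on with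
    | C a =>
      rw [ph2_C]
      induction a using MvPolynomial.induction_on with
      | C o =>
        change MvPolynomial.aeval (fun j => y j / y i) (MvPolynomial.C o) ∈ _
        rw [MvPolynomial.aeval_C]
        exact Subalgebra.algebraMap_mem _ o
      | add p q hp hq => rw [map_add]; exact Subring.add_mem _ hp hq
      | mul_X p j hp =>
        rw [map_mul]
        refine Subring.mul_mem _ hp ?_
        change MvPolynomial.aeval (fun j => y j / y i) (MvPolynomial.X j) ∈ _
        rw [MvPolynomial.aeval_X]
        refine Algebra.subset_adjoin ⟨y j * g k, Submodule.mul_mem_mul (hyM j) (hgN k), ?_⟩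
        rw [mul_div_mul_right _ _ (hg k)]
    | add p q hp hq => rw [map_add]; exact Subring.add_mem _ hp hq
    | mul_X p b hp =>
      rw [map_mul, ph2_X]
      refine Subring.mul_mem _ hp ?_
      refine Algebra.subset_adjoin ⟨y i * g b, Submodule.mul_mem_mul (hyM i) (hgN b), ?_⟩
      rw [mul_div_mul_left _ _ (hy i)]
  · let A : Subalgebra O F := { (ph2 (O := O) y g i k).range with
      algebraMap_mem' := fun o => ⟨MvPolynomial.C (MvPolynomial.C o), by
        rw [ph2_C]
        change MvPolynomial.aeval (fun j => y j / y i) (MvPolynomial.C o) = _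
        rw [MvPolynomial.aeval_C]⟩ }
    have hA : chart O (M * N) (y i * g k) ≤ A := by
      refine Algebra.adjoin_le ?_
      rintro _ ⟨x, hx, rfl⟩
      change x / (y i * g k) ∈ A
      have h1 : ∀ a ∈ M, a / y i ∈ A := by
        intro a ha
        have h2 : a / y i ∈ (ph O y i).range := by
          rw [ph_range]
          exact Algebra.subset_adjoin ⟨a, ha, rfl⟩
        obtain ⟨r, hr⟩ := h2
        exact ⟨MvPolynomial.C r, by rw [ph2_C]; exact hr⟩
      have h3 : ∀ b ∈ N, b / g k ∈ A := by
        intro b hb
        rw [hN] at hb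
        induction hb using Submodule.span_induction with
        | mem b hb =>
          obtain ⟨j, rfl⟩ := hb
          exact ⟨MvPolynomial.X j, ph2_X y g i k j⟩
        | zero => rw [zero_div]; exact Subalgebra.zero_mem _
        | add a b _ _ ha hb => rw [add_div]; exact Subalgebra.add_mem _ ha hb
        | smul c a _ ha => rw [smul_div_assoc]; exact Subalgebra.smul_mem _ ha c
      refine Submodule.mul_induction_on hx (fun a ha b hb => ?_) (fun a b ha hb => ?_)
      · rw [mul_div_mul_comm]
        exact Subalgebra.mul_mem _ (h1 a ha) (h3 b hb)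
      · rw [add_div]
        exact Subalgebra.add_mem _ ha hb
    exact hA

end main

theorem t_TRP : S_TRP := by
  intro O F _ _ _ _ _ n m y g hy hg κ hgκ i k δ hδ
  obtain ⟨r, f, D, hf, hgen, hdet⟩ := hδ
  -- the elements G_b
  have hG : ∀ b, ∃ G : MvPolynomial (Fin n) O, ph O y i G = g b / y i ^ κ := by
    intro b
    have h1 : g b / y i ^ κ ∈ (ph O y i).range := by
      rw [ph_range]
      exact pow_div_mem (hy i) κ _ (hgκ b)
    exact h1
  choose G hG using hG
  have hGk : ph O y i (G k) ≠ 0 := by
    rw [hG]
    exact div_ne_zero (hg k) (pow_ne_zero _ (hy i))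
  let S := MvPolynomial (Fin m) (MvPolynomial (Fin n) O)
  let φ : S →+* F := ph2 y g i k
  have hφC : ∀ a, φ (MvPolynomial.C a) = ph O y i a := fun a => ph2_C y g i k a
  have hφX : ∀ b, φ (MvPolynomial.X b) = g b / g k := fun b => ph2_X y g i k b
  let f₀ : Fin r ⊕ Fin m → S := Sum.elim (fun a => MvPolynomial.C (f a))
    (fun b => MvPolynomial.C (G k) * MvPolynomial.X b - MvPolynomial.C (G b))
  let D₀ : Fin r ⊕ Fin m → S → F := Sum.elim (fun l s => φ (de (D l) s)) (fun b s => φ (MvPolynomial.pderiv b s))
  have hD₀ : ∀ j, Der φ (D₀ j) := by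
    rintro (l | b)
    · exact { add := fun a b => by
                exact (congrArg φ (de_add (D l) a b)).trans (map_add φ _ _)
              mul := fun a b => by
                exact (congrArg φ (de_mul (D l) a b)).trans ((map_add φ _ _).trans
                  (congrArg₂ (· + ·) (map_mul φ _ _) (map_mul φ _ _))) }
    · exact { add := fun a c => by
                change φ (MvPolynomial.pderiv b (a + c)) = φ (MvPolynomial.pderiv b a) + φ (MvPolynomial.pderiv b c)
                rw [map_add, map_add]
              mul := fun a c => by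
                change φ (MvPolynomial.pderiv b (a * c)) =
                  φ a * φ (MvPolynomial.pderiv b c) + φ c * φ (MvPolynomial.pderiv b a)
                rw [Derivation.leibniz, smul_eq_mul, smul_eq_mul, map_add, map_mul, map_mul] }
  have hf₀ : ∀ j, φ (f₀ j) = 0 := by
    rintro (a | b)
    · change φ (MvPolynomial.C (f a)) = 0
      rw [hφC]
      exact hf a
    · change φ (MvPolynomial.C (G k) * MvPolynomial.X b - MvPolynomial.C (G b)) = 0
      rw [map_sub, map_mul, hφC, hφC, hφX, hG, hG]
      have h1 := hg k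
      have h2 := pow_ne_zero κ (hy i)
      field_simp
      ring
  -- generation
  set I : Ideal S := Ideal.span (Set.range f₀) with hI
  have hfI : ∀ j, f₀ j ∈ I := fun j => Ideal.subset_span ⟨j, rfl⟩
  have hred : ∀ s : S, ∃ (N : ℕ) (a : MvPolynomial (Fin n) O),
      (MvPolynomial.C (G k)) ^ N * s - MvPolynomial.C a ∈ I := by
    intro s
    induction s using MvPolynomial.induction_on with
    | C a => exact ⟨0, a, by rw [pow_zero, one_mul, sub_self]; exact I.zero_mem⟩
    | add p q hp hq =>
      obtain ⟨N, a, h1⟩ := hp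
      obtain ⟨N', a', h2⟩ := hq
      refine ⟨N + N', G k ^ N' * a + G k ^ N * a', ?_⟩
      have h3 := I.add_mem (I.mul_mem_left (MvPolynomial.C (G k) ^ N') h1)
        (I.mul_mem_left (MvPolynomial.C (G k) ^ N) h2)
      have e : (MvPolynomial.C (G k) : S) ^ (N + N') * (p + q) -
          MvPolynomial.C (G k ^ N' * a + G k ^ N * a') =
          MvPolynomial.C (G k) ^ N' * (MvPolynomial.C (G k) ^ N * p - MvPolynomial.C a) +
          MvPolynomial.C (G k) ^ N * (MvPolynomial.C (G k) ^ N' * q - MvPolynomial.C a') := by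
        rw [map_add, map_mul, map_mul, map_pow, map_pow, pow_add]
        ring
      rw [e]
      exact h3
    | mul_X p b hp =>
      obtain ⟨N, a, h1⟩ := hp
      refine ⟨N + 1, a * G b, ?_⟩
      have h3 := I.add_mem (I.mul_mem_left (MvPolynomial.C (G k) * MvPolynomial.X b) h1)
        (I.mul_mem_left (MvPolynomial.C a) (hfI (Sum.inr b)))
      have e : (MvPolynomial.C (G k) : S) ^ (N + 1) * (p * MvPolynomial.X b) - MvPolynomial.C (a * G b) =
          (MvPolynomial.C (G k) * MvPolynomial.X b) * (MvPolynomial.C (G k) ^ N * p - MvPolynomial.C a) +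
          MvPolynomial.C a * f₀ (Sum.inr b) := by
        change _ = _ + MvPolynomial.C a * (MvPolynomial.C (G k) * MvPolynomial.X b - MvPolynomial.C (G b))
        rw [map_mul, pow_succ]
        ring
      rw [e]
      exact h3
  have hIφ : ∀ s ∈ I, φ s = 0 := by
    intro s hs
    have h1 : I ≤ RingHom.ker φ := by
      rw [hI, Ideal.span_le]
      rintro _ ⟨j, rfl⟩
      exact hf₀ j
    exact h1 hs
  have hgenS : ∀ s, φ s = 0 → ∃ t, φ t ≠ 0 ∧ t * s ∈ I := by
    intro s hs
    obtain ⟨N, a, h1⟩ := hred s
    have h2 := hIφ _ h1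
    rw [map_sub, map_mul, hs, mul_zero, zero_sub, neg_eq_zero, hφC] at h2
    obtain ⟨t, ht, hta⟩ := hgen a h2
    refine ⟨MvPolynomial.C t * MvPolynomial.C (G k) ^ N, ?_, ?_⟩
    · rw [map_mul, map_pow, hφC, hφC]
      exact mul_ne_zero ht (pow_ne_zero _ hGk)
    · have h3 : (MvPolynomial.C (t * a) : S) ∈ I := by
        have h4 : Ideal.map (MvPolynomial.C : MvPolynomial (Fin n) O →+* S) (Ideal.span (Set.range f)) ≤ I := by
          rw [Ideal.map_span, Ideal.span_le]
          rintro _ ⟨_, ⟨a, rfl⟩, rfl⟩
          exact hfI (Sum.inl a)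
        exact h4 (Ideal.mem_map_of_mem _ hta)
      have e : MvPolynomial.C t * MvPolynomial.C (G k) ^ N * s =
          MvPolynomial.C t * (MvPolynomial.C (G k) ^ N * s - MvPolynomial.C a) + MvPolynomial.C (t * a) := by
        rw [map_mul]
        ring
      rw [e]
      exact I.add_mem (I.mul_mem_left _ h1) h3
  -- the determinant
  have hdetS : (Matrix.of fun p q => D₀ q (f₀ p)).det = δ * (g k / y i ^ κ) ^ m := by
    have h1 : (Matrix.of fun p q => D₀ q (f₀ p)) = Matrix.fromBlocks
        (Matrix.of fun a l => ph O y i (D l (f a))) 0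
        (Matrix.of fun b l => D₀ (Sum.inl l) (f₀ (Sum.inr b)))
        (Matrix.diagonal fun _ : Fin m => g k / y i ^ κ) := by
      ext p q
      rcases p with a | b <;> rcases q with l | c
      · rw [Matrix.fromBlocks_apply₁₁]
        exact (congrArg φ (de_C (D l) (f a))).trans (hφC _)
      · rw [Matrix.fromBlocks_apply₁₂]
        change φ (MvPolynomial.pderiv c (MvPolynomial.C (f a))) = 0
        rw [MvPolynomial.pderiv_C, map_zero]
      · rw [Matrix.fromBlocks_apply₂₁]
        rfl
      · rw [Matrix.fromBlocks_apply₂₂]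
        change φ (MvPolynomial.pderiv c (MvPolynomial.C (G k) * MvPolynomial.X b - MvPolynomial.C (G b))) = _
        rw [map_sub, MvPolynomial.pderiv_C, sub_zero, MvPolynomial.pderiv_C_mul, MvPolynomial.pderiv_X,
          Matrix.diagonal_apply]
        by_cases hbc : b = c
        · subst hbc
          rw [if_pos rfl, Pi.single_eq_same, map_mul, map_one, mul_one, hφC, hG]
        · rw [if_neg hbc, Pi.single_eq_of_ne (fun h => hbc h), mul_zero, map_zero]
    rw [h1, Matrix.det_fromBlocks_zero₁₂, Matrix.det_diagonal, Finset.prod_const, Finset.card_univ,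
      Fintype.card_fin, hdet]
    rfl
  -- the final application
  let e := (finSumFinEquiv : Fin r ⊕ Fin m ≃ Fin (r + m))
  haveI : Algebra.FiniteType O S := Algebra.FiniteType.trans (S := MvPolynomial (Fin n) O) inferInstance inferInstance
  obtain ⟨p, h1, h2, h3⟩ := t_INIT' O S F (fun o => rfl) φ (fun o => by
      change φ (MvPolynomial.C (MvPolynomial.C o)) = _
      rw [hφC]
      change MvPolynomial.aeval (fun j => y j / y i) (MvPolynomial.C o) = _
      rw [MvPolynomial.aeval_C]) (r + m) (fun j => D₀ (e.symm j)) (fun j => hD₀ _) (fun j => f₀ (e.symm j))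
    (fun j => hf₀ _) (fun s hs => by
      have hr : Set.range (fun j => f₀ (e.symm j)) = Set.range f₀ := by
        rw [show (fun j => f₀ (e.symm j)) = f₀ ∘ e.symm from rfl, EquivLike.range_comp]
      rw [hr]
      exact hgenS s hs) (fun j s => by
      rcases e.symm j with l | b
      · exact ⟨_, rfl⟩
      · exact ⟨_, rfl⟩)
  have hrange : φ.range = (chart O (Submodule.span O (Set.range y) * Submodule.span O (Set.range g))
      (y i * g k)).toSubring := ph2_range y g i k hy hg
  rw [hrange] at h1 h3
  refine ⟨p, h1, ?_, h3⟩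
  rw [h2, ← hdetS, ← Matrix.det_submatrix_equiv_self e.symm]
  rfl

end Pool.Agent.Run7.h216.RB
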